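import Pool.Agent.Y427.CP.Ser

/-!
The algebra with two generators and the cubic Serre relations; operators on it.
-/

namespace Pool.Agent.Y427.CP

/-- The two Serre relations. -/
inductive Rel {K : Type*} [Field K] (p : K) : FreeAlgebra K Bool → FreeAlgebra K Bool → Prop
  | mk (i : Bool) : Rel p (ser p (FreeAlgebra.ι K i) (FreeAlgebra.ι K (!i))) 0

/-- The presented algebra. -/
def U {K : Type*} [Field K] (p : K) := RingQuot (Rel p)

noncomputable instance {K : Type*} [Field K] (p : K) : Ring (U p) :=
  inferInstanceAs (Ring (RingQuot (Rel p)))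

noncomputable instance {K : Type*} [Field K] (p : K) : Algebra K (U p) :=
  inferInstanceAs (Algebra K (RingQuot (Rel p)))

/-- The quotient map. -/
noncomputable def mkU {K : Type*} [Field K] (p : K) : FreeAlgebra K Bool →ₐ[K] U p :=
  RingQuot.mkAlgHom K (Rel p)

variable {K : Type*} [Field K] (p : K)

/-- The generators. -/
noncomputable def g (i : Bool) : U p := mkU p (FreeAlgebra.ι K i)

lemma ser_g (i : Bool) : ser p (g p i) (g p (!i)) = 0 := by
  have h : mkU p (ser p (FreeAlgebra.ι K i) (FreeAlgebra.ι K (!i))) = mkU p 0 :=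
    RingQuot.mkAlgHom_rel K (Rel.mk (p := p) i)
  rw [map_zero, ser_map] at h
  exact h

variable {p} in
/-- Operators which satisfy the Serre relations give an algebra map. -/
noncomputable def lft {R : Type*} [Ring R] [Algebra K R] (X : Bool → R)
    (h : ∀ i, ser p (X i) (X (!i)) = 0) : U p →ₐ[K] R :=
  RingQuot.liftAlgHom K ⟨FreeAlgebra.lift K X, by
    rintro _ _ ⟨i⟩
    rw [map_zero, ser_map, FreeAlgebra.lift_ι_apply, FreeAlgebra.lift_ι_apply]
    exact h i⟩

variable {p} in
@[simp] lemma lft_g {R : Type*} [Ring R] [Algebra K R] (X : Bool → R)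
    (h : ∀ i, ser p (X i) (X (!i)) = 0) (i : Bool) : lft X h (g p i) = X i := by
  have h1 : lft X h (g p i) = FreeAlgebra.lift K X (FreeAlgebra.ι K i) :=
    RingQuot.liftAlgHom_mkAlgHom_apply K _ _ _
  rw [h1, FreeAlgebra.lift_ι_apply]

variable {p} in
/-- Induction by left multiplication with generators. -/
lemma ind {C : U p → Prop} (h1 : C 1) (hg : ∀ i x, C x → C (g p i * x))
    (ha : ∀ x y, C x → C y → C (x + y)) (hs : ∀ (a : K) x, C x → C (a • x)) (x : U p) : C x := by
  obtain ⟨y, hy⟩ := RingQuot.mkAlgHom_surjective K (Rel p) x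
  change mkU p y = x at hy
  subst hy
  have key : ∀ y : FreeAlgebra K Bool, ∀ x, C x → C (mkU p y * x) := by
    intro y
    induction y using FreeAlgebra.induction with
    | grade0 r =>
      intro x hx
      rw [AlgHom.commutes, ← Algebra.smul_def]
      exact hs r x hx
    | grade1 i => intro x hx; exact hg i x hx
    | mul a b iha ihb =>
      intro x hx
      rw [map_mul, mul_assoc]
      exact iha _ (ihb _ hx)
    | add a b iha ihb =>
      intro x hx
      rw [map_add, add_mul]
      exact ha _ _ (iha _ hx) (ihb _ hx)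
  simpa using key y 1 h1

variable {p} in
/-- Two linear maps which agree at `1` and have the same recursion agree. -/
lemma lext {M : Type*} [AddCommGroup M] [Module K M] (f h : U p →ₗ[K] M) (h1 : f 1 = h 1)
    (hg : ∀ i x, f x = h x → f (g p i * x) = h (g p i * x)) (x : U p) : f x = h x := by
  refine ind (C := fun x => f x = h x) h1 hg ?_ ?_ x
  · intro x y hx hy
    rw [map_add, map_add, hx, hy]
  · intro a x hx
    rw [map_smul, map_smul, hx]

/-- Left multiplication as an operator. -/
noncomputable abbrev Lm (x : U p) : Module.End K (U p) := LinearMap.mulLeft K x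

variable {p} in
/-- Operators on a module which satisfy the Serre relations. -/
def IsS {M : Type*} [AddCommGroup M] [Module K M] (G : Bool → Module.End K M) : Prop :=
  ∀ i, ser p (G i) (G (!i)) = 0

end Pool.Agent.Y427.CP
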