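import Pool.Agent.Y427.CP.Ops

/-!
The braided antipode and the braided coproduct.
-/

open scoped TensorProduct

namespace Pool.Agent.Y427.CP

variable {K : Type*} [Field K] {p : K}

/-- Operators used for the antipode. -/
noncomputable def N (p : K) (i : Bool) : Module.End K (U p) :=
  LinearMap.mulRight K (g p i) ∘ₗ (sg p i).toLinearMap

lemma N_apply (i : Bool) (x : U p) : N p i x = sg p i x * g p i := rfl

lemma ser_N (hp : p ≠ 0) (i : Bool) : ser p (N p i) (N p (!i)) = 0 := by
  have h := ser_g p i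
  ext x
  unfold ser at h ⊢
  simp only [LinearMap.sub_apply, LinearMap.add_apply, LinearMap.smul_apply, Module.End.mul_apply,
    N_apply, map_mul, sg_g, map_smul, smul_mul_assoc, mul_smul_comm, smul_smul, c_self,
    c_not, c_not', sg_comm p (!i) i, LinearMap.zero_apply]
  have h2 := congrArg (fun y => sg p i (sg p i (sg p i (sg p (!i) x))) * y) h
  simp only [mul_sub, mul_add, mul_zero, mul_smul_comm, ← mul_assoc] at h2
  rw [← neg_eq_zero, ← h2]
  match_scalars <;> field_simp

/-- The antipode representation. -/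
noncomputable def repS (hp : p ≠ 0) : U p →ₐ[K] Module.End K (U p) :=
  lft (fun i => (-1 : K) • N p i) (fun i => by rw [ser_smul, ser_N hp, smul_zero])

/-- The braided antipode. -/
noncomputable def S (hp : p ≠ 0) : U p →ₗ[K] U p :=
  (LinearMap.applyₗ (1 : U p)) ∘ₗ (repS hp).toLinearMap

lemma S_one (hp : p ≠ 0) : S hp 1 = 1 := by
  change repS hp 1 1 = 1
  rw [map_one (repS hp)]
  rfl

lemma S_gmul (hp : p ≠ 0) (i : Bool) (x : U p) :
    S hp (g p i * x) = - (sg p i (S hp x) * g p i) := by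
  change repS hp (g p i * x) 1 = _
  rw [map_mul, Module.End.mul_apply]
  change repS hp (g p i) (S hp x) = _
  unfold repS
  rw [lft_g, LinearMap.smul_apply, N_apply, neg_smul, one_smul]

lemma S_sg (hp : p ≠ 0) (i : Bool) (x : U p) : S hp (sg p i x) = sg p i (S hp x) := by
  refine lext ((S hp) ∘ₗ (sg p i).toLinearMap) ((sg p i).toLinearMap ∘ₗ (S hp)) ?_ ?_ x
  · simp [S_one]
  · intro j x hx
    simp only [LinearMap.comp_apply, AlgHom.toLinearMap_apply] at hx ⊢
    rw [sg_gmul, map_smul, S_gmul, S_gmul, hx, map_neg, sg_mulg, sg_comm, smul_neg]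

lemma S_mulg (hp : p ≠ 0) (i : Bool) (x : U p) :
    S hp (x * g p i) = - (g p i * sg p i (S hp x)) := by
  refine lext ((S hp) ∘ₗ (LinearMap.mulRight K (g p i)))
    (-((LinearMap.mulLeft K (g p i)) ∘ₗ (sg p i).toLinearMap ∘ₗ (S hp))) ?_ ?_ x
  · have h := S_gmul hp i 1
    rw [mul_one, S_one, map_one, one_mul] at h
    simp [S_one, h]
  · intro j x hx
    simp only [LinearMap.comp_apply, AlgHom.toLinearMap_apply, LinearMap.mulRight_apply,
      LinearMap.neg_apply, LinearMap.mulLeft_apply] at hx ⊢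
    rw [mul_assoc, S_gmul, hx, S_gmul, map_neg, sg_gmul, map_neg, sg_mulg, sg_comm p j i,
      neg_mul, mul_neg, mul_smul_comm, smul_mul_assoc, mul_assoc, c_comm]

lemma S_S_gmul (hp : p ≠ 0) (i : Bool) (x : U p) :
    S hp (S hp (g p i * x)) = g p i * sg p i (sg p i (S hp (S hp x))) := by
  rw [S_gmul, map_neg, S_mulg, neg_neg, S_sg]

section coproduct

/-- First half of the coproduct operators. -/
noncomputable def A1 (p : K) (i : Bool) : Module.End K (U p ⊗[K] U p) :=
  TensorProduct.map (Lm p (g p i)) LinearMap.id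

/-- Second half of the coproduct operators. -/
noncomputable def A2 (p : K) (i : Bool) : Module.End K (U p ⊗[K] U p) :=
  TensorProduct.map (sg p i).toLinearMap (Lm p (g p i))

lemma A1_tmul (i : Bool) (a b : U p) : A1 p i (a ⊗ₜ b) = (g p i * a) ⊗ₜ b := rfl

lemma A2_tmul (i : Bool) (a b : U p) : A2 p i (a ⊗ₜ b) = (sg p i a) ⊗ₜ (g p i * b) := rfl

lemma ser_A1 (i : Bool) : ser p (A1 p i) (A1 p (!i)) = 0 := by
  have h := ser_Lm p i
  have h2 : ∀ a : U p, g p i * (g p i * (g p i * (g p (!i) * a)))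
      - (p + 1 + p⁻¹) • (g p i * (g p i * (g p (!i) * (g p i * a))))
      + (p + 1 + p⁻¹) • (g p i * (g p (!i) * (g p i * (g p i * a))))
      - g p (!i) * (g p i * (g p i * (g p i * a))) = 0 := fun a => by
    have := congrArg (fun f : Module.End K (U p) => f a) h
    simpa [ser] using this
  ext a b
  have h3 := congrArg (fun y => y ⊗ₜ[K] b) (h2 a)
  simp only [TensorProduct.sub_tmul, TensorProduct.add_tmul, TensorProduct.zero_tmul,
    ← TensorProduct.smul_tmul'] at h3
  simpa [ser, A1_tmul, Module.End.mul_apply] using h3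

lemma ser_A2 (i : Bool) : ser p (A2 p i) (A2 p (!i)) = 0 := by
  have h := ser_Lm p i
  have h2 : ∀ a : U p, g p i * (g p i * (g p i * (g p (!i) * a)))
      - (p + 1 + p⁻¹) • (g p i * (g p i * (g p (!i) * (g p i * a))))
      + (p + 1 + p⁻¹) • (g p i * (g p (!i) * (g p i * (g p i * a))))
      - g p (!i) * (g p i * (g p i * (g p i * a))) = 0 := fun a => by
    have := congrArg (fun f : Module.End K (U p) => f a) h
    simpa [ser] using this
  ext a b
  have h3 := congrArg (fun y => (sg p i (sg p i (sg p i (sg p (!i) a)))) ⊗ₜ[K] y) (h2 b)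
  simp only [TensorProduct.tmul_sub, TensorProduct.tmul_add, TensorProduct.tmul_zero,
    TensorProduct.tmul_smul] at h3
  simpa [ser, A2_tmul, Module.End.mul_apply, sg_comm p (!i) i] using h3

lemma A2_A1 (i j : Bool) : A2 p i * A1 p j = c p i j • (A1 p j * A2 p i) := by
  ext a b
  simp [A1_tmul, A2_tmul, Module.End.mul_apply, TensorProduct.smul_tmul']

/-- The coproduct representation. -/
noncomputable def repD (hp : p ≠ 0) : U p →ₐ[K] Module.End K (U p ⊗[K] U p) :=
  lft (fun i => A1 p i + A2 p i) (fun i => by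
    refine ser_mix hp ?_ ?_ ?_ (ser_A1 i) (ser_A2 i)
    · rw [A2_A1, c_self]
    · rw [A2_A1, c_not]
    · rw [A2_A1, c_not'])

/-- The braided coproduct. -/
noncomputable def De (hp : p ≠ 0) : U p →ₗ[K] U p ⊗[K] U p :=
  (LinearMap.applyₗ ((1 : U p) ⊗ₜ[K] (1 : U p))) ∘ₗ (repD hp).toLinearMap

lemma De_one (hp : p ≠ 0) : De hp 1 = 1 ⊗ₜ 1 := by
  change repD hp 1 (1 ⊗ₜ 1) = _
  rw [map_one]
  rfl

lemma De_gmul (hp : p ≠ 0) (i : Bool) (x : U p) :
    De hp (g p i * x) = A1 p i (De hp x) + A2 p i (De hp x) := by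
  change repD hp (g p i * x) (1 ⊗ₜ 1) = _
  rw [map_mul, Module.End.mul_apply]
  change repD hp (g p i) (De hp x) = _
  unfold repD
  rw [lft_g, LinearMap.add_apply]

end coproduct

end Pool.Agent.Y427.CP
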