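import Pool.Agent.Y427.CP.Anti

/-!
Compatibility of the operators with the grading and with each other.
-/

open scoped TensorProduct

namespace Pool.Agent.Y427.CP

variable {K : Type*} [Field K] {p : K}

lemma c_zpow (i j : Bool) : c p i j = p ^ (e j i - e j (!i)) := by
  cases i <;> cases j <;> simp [c, e]

lemma pr_sg (i : Bool) (x : U p) : ∀ μ, pr p μ (sg p i x) = sg p i (pr p μ x) := by
  refine ind (C := fun x => ∀ μ, pr p μ (sg p i x) = sg p i (pr p μ x)) ?_ ?_ ?_ ?_ x
  · intro μ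
    rw [map_one, pr_one]
    split_ifs <;> simp
  · intro j x hx μ
    rw [sg_gmul, map_smul, pr_gmul, pr_gmul, sg_gmul, hx]
  · intro x y hx hy μ
    simp only [map_add, hx, hy]
  · intro a x hx μ
    simp only [map_smul, hx]

lemma sg_pr (hp : p ≠ 0) (i : Bool) (x : U p) :
    ∀ μ, sg p i (pr p μ x) = p ^ (μ i - μ (!i)) • pr p μ x := by
  refine ind (C := fun x => ∀ μ, sg p i (pr p μ x) = p ^ (μ i - μ (!i)) • pr p μ x) ?_ ?_ ?_ ?_ x
  · intro μ
    rw [pr_one]
    by_cases h : μ = 0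
    · subst h; simp
    · simp [h]
  · intro j x hx μ
    rw [pr_gmul, sg_gmul, hx, mul_smul_comm, smul_smul, c_zpow, ← zpow_add₀ hp]
    congr 2
    simp only [Pi.sub_apply]
    ring
  · intro x y hx hy μ
    simp only [map_add, hx, hy, smul_add]
  · intro a x hx μ
    simp only [map_smul, hx, smul_comm a]

lemma rr_pr (hp : p ≠ 0) (i : Bool) (x : U p) :
    ∀ μ, rr hp i (pr p μ x) = pr p (μ - e i) (rr hp i x) := by
  refine ind (C := fun x => ∀ μ, rr hp i (pr p μ x) = pr p (μ - e i) (rr hp i x)) ?_ ?_ ?_ ?_ x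
  · intro μ
    rw [pr_one, rr_one, map_zero]
    split_ifs
    · rw [rr_one]
    · rw [map_zero]
  · intro j x hx μ
    rw [pr_gmul, rr_gmul, rr_gmul, hx, map_add, pr_gmul, sub_right_comm]
    congr 1
    split_ifs with h
    · subst h; rw [pr_sg]
    · rw [map_zero]
  · intro x y hx hy μ
    simp only [map_add, hx, hy]
  · intro a x hx μ
    simp only [map_smul, hx]

lemma ll_pr (hp : p ≠ 0) (i : Bool) (x : U p) :
    ∀ μ, ll hp i (pr p μ x) = pr p (μ - e i) (ll hp i x) := by
  refine ind (C := fun x => ∀ μ, ll hp i (pr p μ x) = pr p (μ - e i) (ll hp i x)) ?_ ?_ ?_ ?_ x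
  · intro μ
    rw [pr_one, ll_one, map_zero]
    split_ifs
    · rw [ll_one]
    · rw [map_zero]
  · intro j x hx μ
    rw [pr_gmul, ll_gmul, ll_gmul, hx, map_add, map_smul, pr_gmul, sub_right_comm]
    congr 1
    split_ifs with h
    · subst h; rfl
    · rw [map_zero]
  · intro x y hx hy μ
    simp only [map_add, hx, hy]
  · intro a x hx μ
    simp only [map_smul, hx]

lemma rr_sg (hp : p ≠ 0) (i j : Bool) (x : U p) :
    rr hp i (sg p j x) = c p j i • sg p j (rr hp i x) := by
  refine lext ((rr hp i) ∘ₗ (sg p j).toLinearMap) (c p j i • (sg p j).toLinearMap ∘ₗ (rr hp i))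
    ?_ ?_ x
  · simp [rr_one]
  · intro k x hx
    simp only [LinearMap.comp_apply, AlgHom.toLinearMap_apply, LinearMap.smul_apply] at hx ⊢
    rw [sg_gmul, map_smul, rr_gmul, rr_gmul, map_add, sg_gmul, hx, smul_add, smul_add,
      mul_smul_comm, smul_comm (c p j k)]
    congr 1
    split_ifs with h
    · subst h; rw [sg_comm]
    · simp

lemma ll_sg (hp : p ≠ 0) (i j : Bool) (x : U p) :
    ll hp i (sg p j x) = c p j i • sg p j (ll hp i x) := by
  refine lext ((ll hp i) ∘ₗ (sg p j).toLinearMap) (c p j i • (sg p j).toLinearMap ∘ₗ (ll hp i))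
    ?_ ?_ x
  · simp [ll_one]
  · intro k x hx
    simp only [LinearMap.comp_apply, AlgHom.toLinearMap_apply, LinearMap.smul_apply] at hx ⊢
    rw [sg_gmul, map_smul, ll_gmul, ll_gmul, map_add, map_smul, sg_gmul, hx, smul_add, smul_add,
      mul_smul_comm]
    congr 1
    · split_ifs with h
      · subst h; rfl
      · simp
    · rw [smul_smul, smul_smul, smul_smul, smul_smul]
      congr 1
      ring

lemma rr_ll (hp : p ≠ 0) (i j : Bool) (x : U p) : rr hp i (ll hp j x) = ll hp j (rr hp i x) := by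
  refine lext ((rr hp i) ∘ₗ (ll hp j)) ((ll hp j) ∘ₗ (rr hp i)) ?_ ?_ x
  · simp [ll_one, rr_one]
  · intro k x hx
    simp only [LinearMap.comp_apply] at hx ⊢
    rw [ll_gmul, rr_gmul, map_add, map_smul, map_add, rr_gmul, ll_gmul, hx, smul_add, add_assoc]
    congr 1
    · split_ifs <;> simp
    · congr 1
      split_ifs with h
      · subst h; rw [ll_sg, c_comm]
      · simp

lemma S_pr (hp : p ≠ 0) (x : U p) : ∀ μ, S hp (pr p μ x) = pr p μ (S hp x) := by
  refine ind (C := fun x => ∀ μ, S hp (pr p μ x) = pr p μ (S hp x)) ?_ ?_ ?_ ?_ x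
  · intro μ
    rw [pr_one, S_one, pr_one]
    split_ifs
    · rw [S_one]
    · rw [map_zero]
  · intro j x hx μ
    rw [pr_gmul, S_gmul, S_gmul, hx, map_neg, pr_mulg, pr_sg]
  · intro x y hx hy μ
    simp only [map_add, hx, hy]
  · intro a x hx μ
    simp only [map_smul, hx]

/-- The Casimir exponent. -/
def ee (μ : D) : ℤ := (μ false - μ true) ^ 2 - (μ false + μ true)

lemma ee_step (μ : D) (i : Bool) :
    ee μ = ee (μ - e i) + 2 * ((μ - e i) i - (μ - e i) (!i)) := by
  cases i <;> simp [ee, e] <;> ring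

lemma S_S_pr (hp : p ≠ 0) (x : U p) : ∀ μ, S hp (S hp (pr p μ x)) = p ^ (ee μ) • pr p μ x := by
  refine ind (C := fun x => ∀ μ, S hp (S hp (pr p μ x)) = p ^ (ee μ) • pr p μ x) ?_ ?_ ?_ ?_ x
  · intro μ
    rw [pr_one]
    by_cases h : μ = 0
    · subst h; simp [S_one, ee]
    · simp [h]
  · intro j x hx μ
    rw [pr_gmul, S_S_gmul, hx, map_smul, map_smul, sg_pr hp, map_smul, sg_pr hp, smul_smul,
      smul_smul, mul_smul_comm, ← zpow_add₀ hp, ← zpow_add₀ hp, ee_step μ j]
    congr 2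
    ring
  · intro x y hx hy μ
    simp only [map_add, hx, hy, smul_add]
  · intro a x hx μ
    simp only [map_smul, hx, smul_comm a]

end Pool.Agent.Y427.CP
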