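import Pool.Agent.Y427.CP.Comm

/-!
Properties of the braided coproduct.
-/

open scoped TensorProduct

namespace Pool.Agent.Y427.CP

variable {K : Type*} [Field K] {p : K}

lemma map_A1 (f h : U p →ₗ[K] U p) (i : Bool) (Z : U p ⊗[K] U p) :
    TensorProduct.map f h (A1 p i Z) = TensorProduct.map (f ∘ₗ Lm p (g p i)) h Z := by
  induction Z using TensorProduct.induction_on with
  | zero => simp
  | tmul a b => rw [A1_tmul, TensorProduct.map_tmul, TensorProduct.map_tmul]; rfl
  | add a b ha hb => simp only [map_add, ha, hb]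

lemma map_A2 (f h : U p →ₗ[K] U p) (i : Bool) (Z : U p ⊗[K] U p) :
    TensorProduct.map f h (A2 p i Z)
      = TensorProduct.map (f ∘ₗ (sg p i).toLinearMap) (h ∘ₗ Lm p (g p i)) Z := by
  induction Z using TensorProduct.induction_on with
  | zero => simp
  | tmul a b => rw [A2_tmul, TensorProduct.map_tmul, TensorProduct.map_tmul]; rfl
  | add a b ha hb => simp only [map_add, ha, hb]

lemma A1_map (f h : U p →ₗ[K] U p) (i : Bool) (Z : U p ⊗[K] U p) :
    A1 p i (TensorProduct.map f h Z) = TensorProduct.map (Lm p (g p i) ∘ₗ f) h Z := by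
  induction Z using TensorProduct.induction_on with
  | zero => simp
  | tmul a b => rw [TensorProduct.map_tmul, A1_tmul, TensorProduct.map_tmul]; rfl
  | add a b ha hb => simp only [map_add, ha, hb]

lemma A2_map (f h : U p →ₗ[K] U p) (i : Bool) (Z : U p ⊗[K] U p) :
    A2 p i (TensorProduct.map f h Z)
      = TensorProduct.map ((sg p i).toLinearMap ∘ₗ f) (Lm p (g p i) ∘ₗ h) Z := by
  induction Z using TensorProduct.induction_on with
  | zero => simp
  | tmul a b => rw [TensorProduct.map_tmul, A2_tmul, TensorProduct.map_tmul]; rfl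
  | add a b ha hb => simp only [map_add, ha, hb]

lemma De_sg (hp : p ≠ 0) (i : Bool) (x : U p) :
    De hp (sg p i x) = TensorProduct.map (sg p i).toLinearMap (sg p i).toLinearMap (De hp x) := by
  refine lext ((De hp) ∘ₗ (sg p i).toLinearMap)
    ((TensorProduct.map (sg p i).toLinearMap (sg p i).toLinearMap) ∘ₗ (De hp)) ?_ ?_ x
  · simp [De_one]
  · intro j x hx
    simp only [LinearMap.comp_apply, AlgHom.toLinearMap_apply] at hx ⊢
    rw [sg_gmul, map_smul, De_gmul, De_gmul, hx, map_add, map_A1, map_A2, A1_map, A2_map, smul_add]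
    have h1 : (sg p i).toLinearMap ∘ₗ Lm p (g p j)
        = c p i j • (Lm p (g p j) ∘ₗ (sg p i).toLinearMap) := by
      ext y
      exact sg_gmul p i j y
    have h2 : (sg p j).toLinearMap ∘ₗ (sg p i).toLinearMap
        = (sg p i).toLinearMap ∘ₗ (sg p j).toLinearMap := by
      ext y
      exact sg_comm p j i y
    rw [h1, h2, TensorProduct.map_smul_left, TensorProduct.map_smul_right]
    rfl

lemma De_rr (hp : p ≠ 0) (i : Bool) (x : U p) :
    TensorProduct.map LinearMap.id (rr hp i) (De hp x) = De hp (rr hp i x) := by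
  refine lext ((TensorProduct.map LinearMap.id (rr hp i)) ∘ₗ (De hp)) ((De hp) ∘ₗ (rr hp i))
    ?_ ?_ x
  · simp [De_one, rr_one]
  · intro j x hx
    simp only [LinearMap.comp_apply] at hx ⊢
    rw [De_gmul, rr_gmul, map_add, map_add, De_gmul, ← hx, map_A1, map_A2, A1_map, A2_map,
      LinearMap.id_comp, LinearMap.comp_id, LinearMap.id_comp, LinearMap.comp_id, add_assoc]
    congr 1
    have h1 : rr hp i ∘ₗ Lm p (g p j)
        = Lm p (g p j) ∘ₗ rr hp i + if i = j then (sg p i).toLinearMap else 0 := by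
      ext y
      simp only [LinearMap.comp_apply, LinearMap.add_apply, LinearMap.mulLeft_apply]
      rw [rr_gmul]
      split_ifs <;> simp
    rw [h1, TensorProduct.map_add_right, LinearMap.add_apply]
    congr 1
    split_ifs with h
    · subst h; rw [De_sg]
    · simp

lemma pr_zero_Lm (i : Bool) : pr p 0 ∘ₗ Lm p (g p i) = 0 := by
  ext y
  simp only [LinearMap.comp_apply, LinearMap.mulLeft_apply, LinearMap.zero_apply]
  rw [pr_gmul, pr_neg p y _ i, mul_zero]
  simp [e_self]

lemma De_pr_zero_right (hp : p ≠ 0) (x : U p) :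
    TensorProduct.map LinearMap.id (pr p 0) (De hp x) = x ⊗ₜ 1 := by
  refine lext ((TensorProduct.map LinearMap.id (pr p 0)) ∘ₗ (De hp))
    ((TensorProduct.mk K (U p) (U p)).flip 1) ?_ ?_ x
  · simp [De_one, pr_one]
  · intro j x hx
    simp only [LinearMap.comp_apply, LinearMap.flip_apply, TensorProduct.mk_apply] at hx ⊢
    rw [De_gmul, map_add, map_A1, map_A2, pr_zero_Lm, TensorProduct.map_zero_right,
      LinearMap.zero_apply, add_zero, LinearMap.id_comp]
    have h := A1_map LinearMap.id (pr p 0) j (De hp x)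
    rw [LinearMap.comp_id] at h
    rw [← h, hx, A1_tmul]

lemma De_pr_zero_left (hp : p ≠ 0) (x : U p) :
    TensorProduct.map (pr p 0) LinearMap.id (De hp x) = 1 ⊗ₜ x := by
  refine lext ((TensorProduct.map (pr p 0) LinearMap.id) ∘ₗ (De hp))
    ((TensorProduct.mk K (U p) (U p)) 1) ?_ ?_ x
  · simp [De_one, pr_one]
  · intro j x hx
    simp only [LinearMap.comp_apply, TensorProduct.mk_apply] at hx ⊢
    rw [De_gmul, map_add, map_A1, map_A2, pr_zero_Lm, TensorProduct.map_zero_left,
      LinearMap.zero_apply, zero_add, LinearMap.id_comp]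
    have h := A2_map (pr p 0) LinearMap.id j (De hp x)
    rw [LinearMap.comp_id] at h
    have h2 : (sg p j).toLinearMap ∘ₗ pr p 0 = pr p 0 ∘ₗ (sg p j).toLinearMap := by
      ext y
      exact (pr_sg j y 0).symm
    rw [h2] at h
    rw [← h, hx, A2_tmul, map_one]

lemma De_hom (hp : p ≠ 0) (x : U p) : ∀ κ μ ν : D, μ + ν ≠ κ →
    TensorProduct.map (pr p μ) (pr p ν) (De hp (pr p κ x)) = 0 := by
  refine ind (C := fun x => ∀ κ μ ν : D, μ + ν ≠ κ →
    TensorProduct.map (pr p μ) (pr p ν) (De hp (pr p κ x)) = 0) ?_ ?_ ?_ ?_ x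
  · intro κ μ ν h
    rw [pr_one]
    split_ifs with h0
    · rw [De_one, TensorProduct.map_tmul, pr_one, pr_one]
      split_ifs with h1 h2
      · exact absurd (by rw [h1, h2, h0, add_zero]) h
      · simp
      · simp
      · simp
    · simp
  · intro j x hx κ μ ν h
    have h1 : pr p μ ∘ₗ Lm p (g p j) = Lm p (g p j) ∘ₗ pr p (μ - e j) := by
      ext y
      exact pr_gmul p μ j y
    have h2 : pr p ν ∘ₗ Lm p (g p j) = Lm p (g p j) ∘ₗ pr p (ν - e j) := by
      ext y
      exact pr_gmul p ν j y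
    have h3 : (sg p j).toLinearMap ∘ₗ pr p μ = pr p μ ∘ₗ (sg p j).toLinearMap := by
      ext y
      exact (pr_sg j y μ).symm
    rw [pr_gmul, De_gmul, map_add, map_A1, map_A2, h1, h2, ← h3, ← A1_map, ← A2_map, hx, hx]
    · simp
    · intro h'
      apply h
      rw [add_sub_assoc'] at h'
      exact sub_left_injective h'
    · intro h'
      apply h
      rw [sub_add_eq_add_sub] at h'
      exact sub_left_injective h'
  · intro x y hx hy κ μ ν h
    rw [map_add, map_add, map_add, hx κ μ ν h, hy κ μ ν h, add_zero]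
  · intro a x hx κ μ ν h
    rw [map_smul, map_smul, map_smul, hx κ μ ν h, smul_zero]

/-- Contraction of the first factor. -/
noncomputable def cl (φ : U p →ₗ[K] K) : U p ⊗[K] U p →ₗ[K] U p :=
  (TensorProduct.lid K (U p)).toLinearMap ∘ₗ TensorProduct.map φ LinearMap.id

lemma cl_tmul (φ : U p →ₗ[K] K) (a b : U p) : cl φ (a ⊗ₜ b) = φ a • b := by
  simp [cl]

lemma cl_map (φ : U p →ₗ[K] K) (f h : U p →ₗ[K] U p) (Z : U p ⊗[K] U p) :
    cl φ (TensorProduct.map f h Z) = h (cl (φ ∘ₗ f) Z) := by
  induction Z using TensorProduct.induction_on with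
  | zero => simp
  | tmul a b => rw [TensorProduct.map_tmul, cl_tmul, cl_tmul, map_smul]; rfl
  | add a b ha hb => simp only [map_add, ha, hb]

/-- Contraction of the second factor. -/
noncomputable def cr (φ : U p →ₗ[K] K) : U p ⊗[K] U p →ₗ[K] U p :=
  (TensorProduct.rid K (U p)).toLinearMap ∘ₗ TensorProduct.map LinearMap.id φ

lemma cr_tmul (φ : U p →ₗ[K] K) (a b : U p) : cr φ (a ⊗ₜ b) = φ b • a := by
  simp [cr]

lemma cr_map (φ : U p →ₗ[K] K) (f h : U p →ₗ[K] U p) (Z : U p ⊗[K] U p) :
    cr φ (TensorProduct.map f h Z) = f (cr (φ ∘ₗ h) Z) := by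
  induction Z using TensorProduct.induction_on with
  | zero => simp
  | tmul a b => rw [TensorProduct.map_tmul, cr_tmul, cr_tmul, map_smul]; rfl
  | add a b ha hb => simp only [map_add, ha, hb]

lemma cl_ext (Z : U p ⊗[K] U p) (h : ∀ φ : U p →ₗ[K] K, cl φ Z = 0) : Z = 0 := by
  classical
  let b := Module.Basis.ofVectorSpace K (U p)
  apply (TensorProduct.equivFinsuppOfBasisLeft (N := U p) b).injective
  rw [map_zero]
  ext i
  rw [Finsupp.zero_apply, ← h (b.coord i)]
  clear h
  induction Z using TensorProduct.induction_on with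
  | zero => simp
  | tmul x y => rw [TensorProduct.equivFinsuppOfBasisLeft_apply_tmul_apply, cl_tmul]; rfl
  | add x y hx hy => simp only [map_add, Finsupp.add_apply, hx, hy]

lemma cr_ext (Z : U p ⊗[K] U p) (h : ∀ φ : U p →ₗ[K] K, cr φ Z = 0) : Z = 0 := by
  apply (TensorProduct.comm K (U p) (U p)).injective
  rw [map_zero]
  apply cl_ext
  intro φ
  rw [← h φ]
  clear h
  induction Z using TensorProduct.induction_on with
  | zero => simp
  | tmul x y => rw [TensorProduct.comm_tmul, cl_tmul, cr_tmul]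
  | add x y hx hy => simp only [map_add, hx, hy]

lemma pp_ext (Z : U p ⊗[K] U p)
    (h : ∀ μ ν : D, TensorProduct.map (pr p μ) (pr p ν) Z = 0) : Z = 0 := by
  apply cl_ext
  intro φ
  apply pr_ext
  intro ν
  have h1 := cl_map φ LinearMap.id (pr p ν) Z
  rw [LinearMap.comp_id] at h1
  rw [← h1]
  have h2 : TensorProduct.map LinearMap.id (pr p ν) Z = 0 := by
    apply cr_ext
    intro ψ
    apply pr_ext
    intro μ
    have h3 := cr_map ψ (pr p μ) LinearMap.id (TensorProduct.map LinearMap.id (pr p ν) Z)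
    rw [LinearMap.comp_id] at h3
    have h4 : TensorProduct.map (pr p μ) LinearMap.id (TensorProduct.map LinearMap.id (pr p ν) Z)
        = TensorProduct.map (pr p μ) (pr p ν) Z := by
      rw [← LinearMap.comp_apply, ← TensorProduct.map_comp, LinearMap.comp_id, LinearMap.id_comp]
    rw [← h3, h4, h μ ν, map_zero]
  rw [h2, map_zero]

/-- Multiplication with the antipode on the second factor. -/
noncomputable def Th (hp : p ≠ 0) : U p ⊗[K] U p →ₗ[K] U p :=
  LinearMap.mul' K (U p) ∘ₗ TensorProduct.map LinearMap.id (S hp)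

lemma Th_tmul (hp : p ≠ 0) (a b : U p) : Th hp (a ⊗ₜ b) = a * S hp b := by
  simp [Th]

lemma Th_A (hp : p ≠ 0) (i : Bool) (Z : U p ⊗[K] U p) :
    Th hp (A1 p i Z + A2 p i Z) = g p i * Th hp Z - sg p i (Th hp Z) * g p i := by
  induction Z using TensorProduct.induction_on with
  | zero => simp
  | tmul a b =>
    rw [map_add, A1_tmul, A2_tmul, Th_tmul, Th_tmul, Th_tmul, S_gmul, map_mul]
    noncomm_ring
  | add x y hx hy =>
    have : A1 p i (x + y) + A2 p i (x + y)
        = (A1 p i x + A2 p i x) + (A1 p i y + A2 p i y) := by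
      rw [map_add, map_add]; abel
    rw [this, map_add, hx, hy, map_add, map_add, mul_add, add_mul]
    abel

lemma Th_De (hp : p ≠ 0) (x : U p) : Th hp (De hp x) = pr p 0 x := by
  refine lext ((Th hp) ∘ₗ (De hp)) (pr p 0) ?_ ?_ x
  · simp [De_one, Th_tmul, S_one, pr_one]
  · intro j x hx
    simp only [LinearMap.comp_apply] at hx ⊢
    rw [De_gmul, Th_A, hx]
    obtain ⟨a, ha⟩ := pr_zero p x
    rw [ha, map_smul, map_one, mul_smul_comm, smul_mul_assoc, mul_one, one_mul, sub_self]
    exact (congrArg (fun f : U p →ₗ[K] U p => f x) (pr_zero_Lm (p := p) j)).symm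

end Pool.Agent.Y427.CP
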