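import Pool.Agent.Y427.CP.Alg

/-!
The grading of the presented algebra by `Bool → ℤ`.
-/

namespace Pool.Agent.Y427.CP

variable {K : Type*} [Field K] (p : K)

/-- Degrees. -/
abbrev D := Bool → ℤ

/-- Degree of a generator. -/
def e (i : Bool) : D := fun j => if j = i then 1 else 0

lemma ser_single (a b : D) (x y : U p) :
    ser p (AddMonoidAlgebra.single a x) (AddMonoidAlgebra.single b y)
      = AddMonoidAlgebra.single (a + a + a + b) (ser p x y) := by
  unfold ser
  simp only [AddMonoidAlgebra.single_mul_single]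
  rw [show a + a + b + a = a + a + a + b by abel, show a + b + a + a = a + a + a + b by abel,
    show b + a + a + a = a + a + a + b by abel, AddMonoidAlgebra.smul_single,
    AddMonoidAlgebra.smul_single, ← AddMonoidAlgebra.single_sub, ← AddMonoidAlgebra.single_add,
    ← AddMonoidAlgebra.single_sub]

/-- The grading map. -/
noncomputable def Gam : U p →ₐ[K] AddMonoidAlgebra (U p) D :=
  lft (fun i => AddMonoidAlgebra.single (e i) (g p i)) (fun i => by
    rw [ser_single, ser_g, AddMonoidAlgebra.single_zero])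

@[simp] lemma Gam_g (i : Bool) : Gam p (g p i) = AddMonoidAlgebra.single (e i) (g p i) := by
  unfold Gam; rw [lft_g]

/-- The homogeneous component of degree `μ`. -/
noncomputable def pr (μ : D) : U p →ₗ[K] U p :=
  Finsupp.lapply μ ∘ₗ (AddMonoidAlgebra.coeffLinearEquiv K).toLinearMap ∘ₗ (Gam p).toLinearMap

lemma pr_apply (μ : D) (x : U p) : pr p μ x = (Gam p x).coeff μ := rfl

lemma pr_one (μ : D) : pr p μ 1 = if μ = 0 then 1 else 0 := by
  rw [pr_apply, map_one, AddMonoidAlgebra.one_def]
  by_cases h : μ = 0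
  · subst h; simp
  · simp [h, Finsupp.single_apply, Ne.symm h]

lemma pr_gmul (μ : D) (i : Bool) (x : U p) : pr p μ (g p i * x) = g p i * pr p (μ - e i) x := by
  rw [pr_apply, map_mul, Gam_g, AddMonoidAlgebra.coeff_single_mul_apply, pr_apply]
  congr 2
  abel

lemma pr_mulg (μ : D) (i : Bool) (x : U p) : pr p μ (x * g p i) = pr p (μ - e i) x * g p i := by
  rw [pr_apply, map_mul, Gam_g, AddMonoidAlgebra.coeff_mul_single_apply, pr_apply]
  congr 2

lemma pr_pr (x : U p) : ∀ μ ν : D, pr p μ (pr p ν x) = if μ = ν then pr p ν x else 0 := by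
  refine ind (C := fun x => ∀ μ ν : D, pr p μ (pr p ν x) = if μ = ν then pr p ν x else 0)
    ?_ ?_ ?_ ?_ x
  · intro μ ν
    rw [pr_one]
    split_ifs with h1 h2 h2
    · subst h2; rw [pr_one, if_pos h1]
    · rw [pr_one, if_neg (fun h => h2 (h.trans h1.symm))]
    · rw [map_zero]
    · rw [map_zero]
  · intro i x hx μ ν
    rw [pr_gmul, pr_gmul, hx]
    by_cases h : μ = ν
    · rw [if_pos h, if_pos (by rw [h])]
    · rw [if_neg h, if_neg (fun h' => h (sub_left_injective h')), mul_zero]
  · intro x y hx hy μ ν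
    rw [map_add, map_add, hx, hy]
    split_ifs <;> simp
  · intro a x hx μ ν
    rw [map_smul, map_smul, hx]
    split_ifs <;> simp

/-- The sum of all components. -/
noncomputable def tot : AddMonoidAlgebra (U p) D →ₗ[K] U p :=
  Finsupp.lsum K (fun _ => LinearMap.id) ∘ₗ (AddMonoidAlgebra.coeffLinearEquiv K).toLinearMap

lemma tot_single (a : D) (x : U p) : tot p (AddMonoidAlgebra.single a x) = x := by
  unfold tot
  simp

lemma tot_gmul (i : Bool) (f : AddMonoidAlgebra (U p) D) :
    tot p (AddMonoidAlgebra.single (e i) (g p i) * f) = g p i * tot p f := by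
  induction f using AddMonoidAlgebra.induction_linear with
  | zero => simp
  | add f h hf hh => rw [mul_add, map_add, map_add, mul_add, hf, hh]
  | single a x => rw [AddMonoidAlgebra.single_mul_single, tot_single, tot_single]

lemma tot_Gam (x : U p) : tot p (Gam p x) = x := by
  refine lext ((tot p) ∘ₗ (Gam p).toLinearMap) LinearMap.id ?_ ?_ x
  · simp only [LinearMap.comp_apply, AlgHom.toLinearMap_apply, map_one, LinearMap.id_apply]
    rw [AddMonoidAlgebra.one_def, tot_single]
  · intro i x hx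
    simp only [LinearMap.comp_apply, AlgHom.toLinearMap_apply, LinearMap.id_apply] at hx ⊢
    rw [map_mul, Gam_g, tot_gmul, hx]

lemma pr_ext (x : U p) (h : ∀ μ, pr p μ x = 0) : x = 0 := by
  have h0 : Gam p x = 0 := by
    ext μ
    exact h μ
  rw [← tot_Gam p x, h0, map_zero]

lemma pr_neg (x : U p) : ∀ (μ : D) (j : Bool), μ j < 0 → pr p μ x = 0 := by
  refine ind (C := fun x => ∀ (μ : D) (j : Bool), μ j < 0 → pr p μ x = 0) ?_ ?_ ?_ ?_ x
  · intro μ j h
    rw [pr_one, if_neg]
    rintro rfl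
    simp at h
  · intro i x hx μ j h
    rw [pr_gmul, hx _ j, mul_zero]
    have : 0 ≤ e i j := by unfold e; split_ifs <;> simp
    simp only [Pi.sub_apply]
    omega
  · intro x y hx hy μ j h
    rw [map_add, hx μ j h, hy μ j h, add_zero]
  · intro a x hx μ j h
    rw [map_smul, hx μ j h, smul_zero]

lemma e_self (i : Bool) : e i i = 1 := by simp [e]

lemma e_ne {i j : Bool} (h : j ≠ i) : e i j = 0 := by simp [e, h]

lemma pr_zero (x : U p) : ∃ c : K, pr p 0 x = c • 1 := by
  refine ind (C := fun x => ∃ c : K, pr p 0 x = c • 1) ?_ ?_ ?_ ?_ x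
  · exact ⟨1, by rw [pr_one]; simp⟩
  · intro i x _
    refine ⟨0, ?_⟩
    rw [pr_gmul, pr_neg p x _ i, mul_zero, zero_smul]
    simp [e_self]
  · rintro x y ⟨a, ha⟩ ⟨b, hb⟩
    exact ⟨a + b, by rw [map_add, ha, hb, add_smul]⟩
  · rintro a x ⟨b, hb⟩
    exact ⟨a * b, by rw [map_smul, hb, smul_smul]⟩

lemma pr_e (i : Bool) (x : U p) : ∃ c : K, pr p (e i) x = c • g p i := by
  refine ind (C := fun x => ∃ c : K, pr p (e i) x = c • g p i) ?_ ?_ ?_ ?_ x
  · refine ⟨0, ?_⟩
    rw [pr_one, if_neg, zero_smul]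
    intro h
    have := congrFun h i
    rw [e_self] at this
    simp at this
  · intro j x _
    by_cases h : j = i
    · subst h
      obtain ⟨c, hc⟩ := pr_zero p x
      refine ⟨c, ?_⟩
      rw [pr_gmul, sub_self, hc, mul_smul_comm, mul_one]
    · refine ⟨0, ?_⟩
      rw [pr_gmul, pr_neg p x _ j, mul_zero, zero_smul]
      simp [e_self, e_ne h]
  · rintro x y ⟨a, ha⟩ ⟨b, hb⟩
    exact ⟨a + b, by rw [map_add, ha, hb, add_smul]⟩
  · rintro a x ⟨b, hb⟩
    exact ⟨a * b, by rw [map_smul, hb, smul_smul]⟩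

end Pool.Agent.Y427.CP
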