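import Pool.Agent.Y427.CP.Nil

/-!
Non-degeneracy and the center.
-/

open scoped TensorProduct

namespace Pool.Agent.Y427.CP

variable {K : Type*} [Field K] {p : K}

/-- Size of a degree. -/
def sz (μ : D) : ℤ := μ false + μ true

lemma sz_add (μ ν : D) : sz (μ + ν) = sz μ + sz ν := by
  simp [sz]; ring

lemma sz_i (μ : D) (i : Bool) : sz μ = μ i + μ (!i) := by
  cases i <;> simp [sz]; ring

lemma sz_e (i : Bool) : sz (e i) = 1 := by
  rw [sz_i _ i, e_self, e_ne (by simp)]; rfl

lemma sz_zero : sz 0 = 0 := by simp [sz]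

lemma sz_sub (μ : D) (i : Bool) : sz (μ - e i) = sz μ - 1 := by
  have h := sz_add (μ - e i) (e i)
  rw [sub_add_cancel, sz_e] at h
  omega

lemma neg_or (ν : D) (h : ν ≠ 0) : (∃ j, ν j < 0) ∨ 1 ≤ sz ν := by
  by_cases h1 : ν false < 0
  · exact Or.inl ⟨_, h1⟩
  by_cases h2 : ν true < 0
  · exact Or.inl ⟨_, h2⟩
  right
  unfold sz
  by_contra h3
  apply h
  funext j
  cases j
  · change ν false = 0; omega
  · change ν true = 0; omega

lemma mm (f h f' h' : U p →ₗ[K] U p) (Z : U p ⊗[K] U p) :
    TensorProduct.map f h (TensorProduct.map f' h' Z)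
      = TensorProduct.map (f ∘ₗ f') (h ∘ₗ h') Z := by
  rw [← LinearMap.comp_apply, ← TensorProduct.map_comp]

lemma prim (hp : p ≠ 0) (n : ℕ)
    (IH : ∀ ν : D, 1 ≤ sz ν → sz ν < n → ∀ y : U p, pr p ν y = y → (∀ i, rr hp i y = 0) → y = 0)
    (μ : D) (hμ : sz μ = n) (hn : 1 ≤ n) (x : U p) (hx : pr p μ x = x)
    (hr : ∀ i, rr hp i x = 0) : De hp x = x ⊗ₜ 1 + 1 ⊗ₜ x := by
  have hμ0 : μ ≠ 0 := by
    rintro rfl
    rw [sz_zero] at hμ
    omega
  rw [← sub_eq_zero]
  apply pp_ext
  intro κ ν
  rw [map_sub, map_add, TensorProduct.map_tmul, TensorProduct.map_tmul, pr_one, pr_one]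
  by_cases hs : κ + ν = μ
  · by_cases hν : ν = 0
    · subst hν
      rw [add_zero] at hs
      subst hs
      have h1 : TensorProduct.map (pr p κ) (pr p 0) (De hp x)
          = TensorProduct.map (pr p κ) LinearMap.id
            (TensorProduct.map LinearMap.id (pr p 0) (De hp x)) := by
        rw [mm, LinearMap.comp_id, LinearMap.id_comp]
      rw [h1, De_pr_zero_right, TensorProduct.map_tmul, if_pos rfl, if_neg hμ0, hx]
      simp
    · by_cases hκ : κ = 0
      · subst hκ
        rw [zero_add] at hs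
        subst hs
        have h1 : TensorProduct.map (pr p 0) (pr p ν) (De hp x)
            = TensorProduct.map LinearMap.id (pr p ν)
              (TensorProduct.map (pr p 0) LinearMap.id (De hp x)) := by
          rw [mm, LinearMap.comp_id, LinearMap.id_comp]
        rw [h1, De_pr_zero_left, TensorProduct.map_tmul, if_pos rfl, if_neg hμ0, hx]
        simp
      · rw [if_neg hν, if_neg hκ, TensorProduct.tmul_zero, TensorProduct.zero_tmul, add_zero,
          sub_zero]
        apply cl_ext
        intro φ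
        rw [cl_map]
        rcases neg_or ν hν with ⟨j, hj⟩ | hν1
        · exact pr_neg p _ ν j hj
        rcases neg_or κ hκ with ⟨j, hj⟩ | hκ1
        · have h0 : φ ∘ₗ pr p κ = 0 := by
            ext y
            rw [LinearMap.comp_apply, pr_neg p y κ j hj, map_zero, LinearMap.zero_apply]
          rw [h0]
          simp [cl]
        have hsz : sz κ + sz ν = n := by rw [← sz_add, hs, hμ]
        apply IH ν hν1 (by omega)
        · rw [pr_pr, if_pos rfl]
        · intro i
          rw [rr_pr]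
          have h2 := cl_map (φ ∘ₗ pr p κ) LinearMap.id (rr hp i) (De hp x)
          rw [LinearMap.comp_id, De_rr, hr i, map_zero, map_zero] at h2
          rw [← h2, map_zero]
  · rw [← hx, De_hom hp x μ κ ν hs, zero_sub, neg_eq_zero, pr_pr, pr_pr]
    by_cases hν : ν = 0
    · subst hν
      rw [add_zero] at hs
      simp [hs, Ne.symm hμ0]
    · rw [if_neg hν, TensorProduct.tmul_zero, zero_add]
      by_cases hκ : κ = 0
      · subst hκ
        rw [zero_add] at hs
        rw [if_neg hs, TensorProduct.tmul_zero]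
      · rw [if_neg hκ, TensorProduct.zero_tmul]

lemma zpow_one_imp (h : ∀ n : ℕ, 0 < n → p ^ n ≠ 1) (z : ℤ) (hz : p ^ z = 1) : z = 0 := by
  rcases lt_trichotomy z 0 with h0 | h0 | h0
  · obtain ⟨m, hm⟩ : ∃ m : ℕ, -z = m := ⟨(-z).toNat, by omega⟩
    exfalso
    apply h m (by omega)
    rw [← zpow_natCast, ← hm, zpow_neg, hz, inv_one]
  · exact h0
  · obtain ⟨m, hm⟩ : ∃ m : ℕ, z = m := ⟨z.toNat, by omega⟩
    exfalso
    apply h m (by omega)
    rw [← zpow_natCast, ← hm, hz]

theorem nondeg (hp : p ≠ 0) (h : ∀ n : ℕ, 0 < n → p ^ n ≠ 1) (n : ℕ) :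
    ∀ μ : D, sz μ = n → 1 ≤ n → ∀ x : U p, pr p μ x = x → (∀ i, rr hp i x = 0) → x = 0 := by
  induction n using Nat.strong_induction_on with
  | _ n ihn =>
  intro μ hμ hn x hx hr
  have IH : ∀ ν : D, 1 ≤ sz ν → sz ν < n → ∀ y : U p, pr p ν y = y →
      (∀ i, rr hp i y = 0) → y = 0 := by
    intro ν h1 h2 y hy hyr
    exact ihn (sz ν).toNat (by omega) ν (by omega) (by omega) y hy hyr
  have hμ0 : μ ≠ 0 := by
    rintro rfl
    rw [sz_zero] at hμ
    omega
  have hprim := prim hp n IH μ hμ hn x hx hr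
  have hT := Th_De hp x
  have h0 : pr p 0 x = 0 := by
    rw [← hx, pr_pr, if_neg (fun h' => hμ0 h'.symm)]
  rw [hprim, map_add, Th_tmul, Th_tmul, S_one, mul_one, one_mul, h0] at hT
  have hS : S hp x = -x := by rw [eq_neg_iff_add_eq_zero, add_comm, hT]
  have hSS := S_S_pr hp x μ
  rw [hx, hS, map_neg, hS, neg_neg] at hSS
  by_contra hx0
  have hee : ee μ = 0 := by
    apply zpow_one_imp h
    by_contra hne
    apply hx0
    have h3 : (p ^ ee μ - 1) • x = 0 := by rw [sub_smul, one_smul, ← hSS, sub_self]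
    exact (smul_eq_zero.1 h3).resolve_left (sub_ne_zero.2 hne)
  have hne : μ false ≠ μ true := by
    intro h1
    unfold ee at hee
    unfold sz at hμ
    rw [h1, sub_self] at hee
    rw [h1] at hμ
    norm_num at hee
    omega
  obtain ⟨i, hi⟩ : ∃ i : Bool, 0 < μ i - μ (!i) := by
    rcases lt_or_gt_of_ne hne with h1 | h1
    · exact ⟨true, by simp; omega⟩
    · exact ⟨false, by simp; omega⟩
  have hee2 : (μ i - μ (!i)) ^ 2 = sz μ := by
    unfold ee at hee
    unfold sz
    cases i
    · simp only [Bool.not_false]; linarith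
    · simp only [Bool.not_true]; linarith
  have hw : sg p i x = p ^ (μ i - μ (!i)) • x := by
    have := sg_pr hp i x μ
    rwa [hx] at this
  have hl : ll hp i x = 0 := by
    have hy : pr p (μ - e i) (ll hp i x) = ll hp i x := by
      rw [← ll_pr, hx]
    have hyr : ∀ j, rr hp j (ll hp i x) = 0 := fun j => by rw [rr_ll, hr j, map_zero]
    by_cases hn1 : n = 1
    · subst hn1
      have h4 : sz μ = 1 := by rw [hμ]; rfl
      rw [h4] at hee2
      have h5 : μ i - μ (!i) = 1 := by nlinarith
      have h6 := sz_i μ i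
      have h7 : μ = e i := by
        funext j
        by_cases hj : j = i
        · subst hj; rw [e_self]; omega
        · rw [e_ne hj]
          have : j = !i := by
            cases i <;> cases j <;> first | rfl | exact absurd rfl hj
          subst this
          omega
      obtain ⟨a, ha⟩ := pr_e p i x
      rw [← h7, hx] at ha
      exfalso
      apply hx0
      have h8 := hr i
      rw [ha, map_smul, rr_g, if_pos rfl] at h8
      rw [ha, ← mul_one (g p i), ← mul_smul_comm, h8, mul_zero]
    · apply IH (μ - e i) _ _ _ hy hyr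
      · rw [sz_sub]; omega
      · rw [sz_sub]; omega
  exact hx0 (vanish hp h i _ hi x hw hl (hr i))

lemma rr_pow_pr (hp : p ≠ 0) (i : Bool) (k : ℕ) (x : U p) : ∀ μ : D,
    (rr hp i ^ k) (pr p μ x) = pr p (μ - k • e i) ((rr hp i ^ k) x) := by
  induction k with
  | zero => intro μ; simp
  | succ k ih =>
    intro μ
    rw [pow_succ', Module.End.mul_apply, Module.End.mul_apply, ih, rr_pr]
    congr 2
    rw [succ_nsmul]
    abel

lemma cen (hp : p ≠ 0) (h : ∀ n : ℕ, 0 < n → p ^ n ≠ 1) (i : Bool) (d : ℤ) (w : U p)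
    (hw : sg p i w = p ^ d • w) (hc : g p i * w = w * g p i) (hk : ∃ k, (rr hp i ^ k) w = 0)
    (hw0 : w ≠ 0) : 0 ≤ d ∧ (d = 0 → rr hp i w = 0) := by
  have hs : ∀ k : ℕ, sg p i ((rr hp i ^ k) w) = p ^ (d - k) • (rr hp i ^ k) w := by
    intro k
    induction k with
    | zero => simpa using hw
    | succ k ih =>
      rw [pow_succ', Module.End.mul_apply]
      have h1 := rr_sg hp i i ((rr hp i ^ k) w)
      rw [ih, map_smul, c_self] at h1
      have h2 : p⁻¹ • (p ^ (d - k) • rr hp i ((rr hp i ^ k) w))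
          = sg p i (rr hp i ((rr hp i ^ k) w)) := by
        rw [h1, smul_smul, inv_mul_cancel₀ hp, one_smul]
      rw [← h2, smul_smul]
      congr 1
      rw [show d - ((k + 1 : ℕ) : ℤ) = d - k - 1 by push_cast; ring, zpow_sub_one₀ hp, mul_comm]
  have key : ∀ k : ℕ, (1 - p) • (g p i * (rr hp i ^ (k + 1)) w
      - p ^ (k + 1) • ((rr hp i ^ (k + 1)) w * g p i))
      = ((1 - p ^ (k + 1)) * (1 - p ^ (d - k))) • (rr hp i ^ k) w := by
    intro k
    induction k with
    | zero =>
      have h1 := congrArg (rr hp i) hc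
      rw [rr_gmul, if_pos rfl, rr_mul, rr_g, if_pos rfl, sg_g, c_self, hw, mul_one,
        mul_smul_comm] at h1
      have h2 : g p i * rr hp i w - p • (rr hp i w * g p i) = (1 - p ^ d) • w := by
        rw [sub_smul, one_smul, sub_eq_sub_iff_add_eq_add, h1, add_comm]
      simp only [zero_add, pow_one, pow_zero, Module.End.one_apply, Nat.cast_zero, sub_zero]
      rw [h2, smul_smul]
    | succ k ih =>
      have h1 := congrArg (rr hp i) ih
      rw [map_smul, map_sub, map_smul, map_smul, rr_gmul, if_pos rfl, rr_mul, rr_g, if_pos rfl,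
        sg_g, c_self, hs, mul_one, mul_smul_comm, ← Module.End.mul_apply, ← Module.End.mul_apply,
        ← pow_succ', ← pow_succ'] at h1
      set y := (rr hp i ^ (k + 1)) w
      set z := (rr hp i ^ (k + 1 + 1)) w
      have h3 : p ^ (d - ((k + 1 : ℕ) : ℤ)) * p = p ^ (d - k) := by
        rw [← zpow_add_one₀ hp]
        congr 1
        push_cast
        ring
      have h2 : (1 - p) • (g p i * z - p ^ (k + 1 + 1) • (z * g p i))
          = ((1 - p ^ (k + 1)) * (1 - p ^ (d - k))) • y
            + ((1 - p) * (p ^ (k + 1) - p ^ (d - ((k + 1 : ℕ) : ℤ)))) • y := by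
        rw [← h1]
        match_scalars <;> ring
      rw [h2, ← add_smul]
      congr 1
      rw [← h3]
      ring
  obtain ⟨K', hK1, hK2⟩ : ∃ k, (rr hp i ^ k) w ≠ 0 ∧ (rr hp i ^ (k + 1)) w = 0 := by
    classical
    have hf : (rr hp i ^ (Nat.find hk)) w = 0 := Nat.find_spec hk
    rcases hm : Nat.find hk with _ | m
    · rw [hm, pow_zero, Module.End.one_apply] at hf
      exact absurd hf hw0
    · refine ⟨m, Nat.find_min hk (by omega), ?_⟩
      rw [hm] at hf
      exact hf
  have h1 := key K'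
  rw [hK2, mul_zero, zero_mul, smul_zero, sub_zero, smul_zero] at h1
  have h2 := (smul_eq_zero.1 h1.symm).resolve_right hK1
  have h3 : d - K' = 0 := by
    apply zpow_one_imp h
    rcases mul_eq_zero.1 h2 with h4 | h4
    · exact absurd (sub_eq_zero.1 h4).symm (h (K' + 1) (by omega))
    · exact (sub_eq_zero.1 h4).symm
  refine ⟨by omega, fun hd => ?_⟩
  have : K' = 0 := by omega
  subst this
  simpa using hK2

/-- Central elements are scalars. -/
theorem central_scalar (hp : p ≠ 0) (h : ∀ n : ℕ, 0 < n → p ^ n ≠ 1) (z : U p)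
    (hz : ∀ i, g p i * z = z * g p i) : ∃ a : K, z = a • 1 := by
  have key : ∀ μ : D, μ ≠ 0 → pr p μ z = 0 := by
    intro μ hμ
    by_contra hw0
    have hc : ∀ i, g p i * pr p μ z = pr p μ z * g p i := by
      intro i
      have h1 := pr_gmul p (μ + e i) i z
      have h2 := pr_mulg p (μ + e i) i z
      rw [add_sub_cancel_right] at h1 h2
      rw [← h1, ← h2, hz]
    have hn : ∀ i, ∃ k, (rr hp i ^ k) (pr p μ z) = 0 := by
      intro i
      refine ⟨(μ i).toNat + 1, ?_⟩
      rw [rr_pow_pr]
      apply pr_neg p _ _ i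
      simp only [Pi.sub_apply, Pi.smul_apply, e_self]
      simp
    have hcen := fun i => cen hp h i _ _ (sg_pr hp i z μ) (hc i) (hn i) hw0
    have hf := hcen false
    have ht := hcen true
    simp only [Bool.not_false] at hf
    simp only [Bool.not_true] at ht
    have hr : ∀ i, rr hp i (pr p μ z) = 0 := by
      intro i
      cases i
      · exact hf.2 (by omega)
      · exact ht.2 (by omega)
    rcases neg_or μ hμ with ⟨j, hj⟩ | h1
    · exact hw0 (pr_neg p z μ j hj)
    · exact hw0 (nondeg hp h (sz μ).toNat μ (by omega) (by omega) _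
        (by rw [pr_pr, if_pos rfl]) hr)
  obtain ⟨a, ha⟩ := pr_zero p z
  refine ⟨a, ?_⟩
  rw [← ha, ← sub_eq_zero]
  apply pr_ext
  intro μ
  rw [map_sub, pr_pr]
  by_cases hμ : μ = 0
  · subst hμ; rw [if_pos rfl, sub_self]
  · rw [if_neg hμ, key μ hμ, sub_zero]

end Pool.Agent.Y427.CP
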