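import Pool.Agent.Y427.CP.Cop

/-!
Local nilpotency of the twisted adjoint action and a vanishing criterion.
-/

open scoped TensorProduct

namespace Pool.Agent.Y427.CP

variable {K : Type*} [Field K] {p : K}

lemma rr_mul (hp : p ≠ 0) (i : Bool) (x y : U p) :
    rr hp i (x * y) = rr hp i x * sg p i y + x * rr hp i y := by
  refine ind (C := fun x => rr hp i (x * y) = rr hp i x * sg p i y + x * rr hp i y) ?_ ?_ ?_ ?_ x
  · rw [one_mul, rr_one, zero_mul, zero_add, one_mul]
  · intro j x hx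
    rw [mul_assoc, rr_gmul, hx, rr_gmul, add_mul]
    split_ifs with h
    · rw [map_mul]; noncomm_ring
    · noncomm_ring
  · intro x x' hx hx'
    rw [add_mul, map_add, hx, hx', map_add]
    noncomm_ring
  · intro a x hx
    rw [smul_mul_assoc, map_smul, hx, map_smul, smul_mul_assoc, smul_mul_assoc, smul_add]

lemma ll_mul (hp : p ≠ 0) (i : Bool) (x y : U p) :
    ll hp i (x * y) = ll hp i x * y + sg p i x * ll hp i y := by
  refine ind (C := fun x => ll hp i (x * y) = ll hp i x * y + sg p i x * ll hp i y) ?_ ?_ ?_ ?_ x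
  · rw [one_mul, ll_one, zero_mul, zero_add, map_one, one_mul]
  · intro j x hx
    rw [mul_assoc, ll_gmul, hx, ll_gmul, sg_gmul, add_mul, mul_add, smul_add, smul_mul_assoc,
      smul_mul_assoc, mul_assoc, mul_assoc, add_assoc]
    split_ifs with h
    · rfl
    · simp
  · intro x x' hx hx'
    rw [add_mul, map_add, hx, hx', map_add, map_add]
    noncomm_ring
  · intro a x hx
    rw [smul_mul_assoc, map_smul, hx, map_smul, map_smul, smul_mul_assoc, smul_mul_assoc, smul_add]

lemma rr_g (hp : p ≠ 0) (i j : Bool) : rr hp i (g p j) = if i = j then 1 else 0 := by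
  have h := rr_gmul hp i j 1
  rw [mul_one, rr_one, mul_zero, zero_add, map_one] at h
  exact h

lemma ll_g (hp : p ≠ 0) (i j : Bool) : ll hp i (g p j) = if i = j then 1 else 0 := by
  have h := ll_gmul hp i j 1
  rw [mul_one, ll_one, mul_zero, smul_zero, add_zero] at h
  exact h

/-- The twisted adjoint action of a generator. -/
noncomputable def Ad (p : K) (i : Bool) : Module.End K (U p) :=
  LinearMap.mulLeft K (g p i) - LinearMap.mulRight K (g p i) ∘ₗ (sg p i).toLinearMap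

lemma Ad_apply (i : Bool) (x : U p) : Ad p i x = g p i * x - sg p i x * g p i := rfl

lemma Ad_mul (i : Bool) (x y : U p) :
    Ad p i (x * y) = Ad p i x * y + sg p i x * Ad p i y := by
  rw [Ad_apply, Ad_apply, Ad_apply, map_mul]
  noncomm_ring

lemma sg_Ad (i : Bool) (x : U p) : sg p i (Ad p i x) = p • Ad p i (sg p i x) := by
  rw [Ad_apply, Ad_apply, map_sub, sg_gmul, sg_mulg, c_self, smul_sub]

lemma rr_Ad (hp : p ≠ 0) (i : Bool) (x : U p) (h : rr hp i x = 0) : rr hp i (Ad p i x) = 0 := by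
  rw [Ad_apply, map_sub, rr_gmul, rr_mul, rr_sg, h, rr_g]
  simp

lemma ll_Ad (hp : p ≠ 0) (i : Bool) (x : U p) :
    ll hp i (Ad p i x) = p • Ad p i (ll hp i x) + x - sg p i (sg p i x) := by
  rw [Ad_apply, map_sub, ll_gmul, ll_mul, ll_sg, ll_g, c_self, Ad_apply, smul_sub,
    smul_mul_assoc]
  simp only [if_true, mul_one]
  abel

lemma Ad_cube (hp : p ≠ 0) (i : Bool) : Ad p i (Ad p i (Ad p i (g p (!i)))) = 0 := by
  have h := ser_g p i
  rw [← h]
  unfold ser
  simp only [Ad_apply, map_sub, sg_g, map_smul, map_mul, c_self, c_not,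
    smul_mul_assoc, mul_smul_comm, mul_sub, sub_mul, smul_sub, smul_smul, ← mul_assoc]
  match_scalars <;> field_simp <;> ring

lemma sg_Ad_pow (i : Bool) (k : ℕ) (x : U p) :
    sg p i ((Ad p i ^ k) x) = p ^ k • (Ad p i ^ k) (sg p i x) := by
  induction k with
  | zero => simp
  | succ k ih =>
    rw [pow_succ', Module.End.mul_apply, sg_Ad, ih, map_smul, smul_smul, pow_succ',
      Module.End.mul_apply]

lemma Ad_pow_sg (hp : p ≠ 0) (i : Bool) (k : ℕ) (x : U p) (h : (Ad p i ^ k) x = 0) :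
    (Ad p i ^ k) (sg p i x) = 0 := by
  have h1 := sg_Ad_pow i k x
  rw [h, map_zero] at h1
  exact (smul_eq_zero.1 h1.symm).resolve_left (pow_ne_zero _ hp)

lemma Ad_pow_mul (hp : p ≠ 0) (i : Bool) (n : ℕ) : ∀ (a b : ℕ) (x y : U p), a + b = n →
    (Ad p i ^ a) x = 0 → (Ad p i ^ b) y = 0 → (Ad p i ^ n) (x * y) = 0 := by
  induction n with
  | zero =>
    intro a b x y hab hx hy
    obtain ⟨rfl, rfl⟩ : a = 0 ∧ b = 0 := by omega
    rw [pow_zero, Module.End.one_apply] at hx
    simp [hx]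
  | succ n ih =>
    intro a b x y hab hx hy
    rcases a with _ | a
    · rw [pow_zero, Module.End.one_apply] at hx
      simp [hx]
    · rcases b with _ | b
      · rw [pow_zero, Module.End.one_apply] at hy
        simp [hy]
      · rw [pow_succ, Module.End.mul_apply, Ad_mul, map_add]
        rw [ih a (b + 1) (Ad p i x) y (by omega) (by rw [← Module.End.mul_apply, ← pow_succ, hx]) hy,
          ih (a + 1) b (sg p i x) (Ad p i y) (by omega) (Ad_pow_sg hp i _ _ hx)
            (by rw [← Module.End.mul_apply, ← pow_succ, hy]), add_zero]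

/-- Locally nilpotent elements in the kernel of the right skew derivation. -/
def NN (hp : p ≠ 0) (i : Bool) (x : U p) : Prop := rr hp i x = 0 ∧ ∃ k, (Ad p i ^ k) x = 0

lemma NN_mul (hp : p ≠ 0) (i : Bool) (x y : U p) (hx : NN hp i x) (hy : NN hp i y) :
    NN hp i (x * y) := by
  obtain ⟨hx1, a, ha⟩ := hx
  obtain ⟨hy1, b, hb⟩ := hy
  exact ⟨by rw [rr_mul, hx1, hy1, zero_mul, mul_zero, add_zero],
    a + b, Ad_pow_mul hp i _ a b x y rfl ha hb⟩

lemma NN_add (hp : p ≠ 0) (i : Bool) (x y : U p) (hx : NN hp i x) (hy : NN hp i y) :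
    NN hp i (x + y) := by
  obtain ⟨hx1, a, ha⟩ := hx
  obtain ⟨hy1, b, hb⟩ := hy
  refine ⟨by rw [map_add, hx1, hy1, add_zero], a + b, ?_⟩
  have h1 : (Ad p i ^ (a + b)) x = 0 := by
    rw [add_comm, pow_add, Module.End.mul_apply, ha, map_zero]
  have h2 : (Ad p i ^ (a + b)) y = 0 := by
    rw [pow_add, Module.End.mul_apply, hb, map_zero]
  rw [map_add, h1, h2, add_zero]

lemma NN_zero (hp : p ≠ 0) (i : Bool) : NN hp i 0 := ⟨map_zero _, 0, map_zero _⟩

lemma NN_smul (hp : p ≠ 0) (i : Bool) (a : K) (x : U p) (hx : NN hp i x) : NN hp i (a • x) := by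
  obtain ⟨hx1, k, hk⟩ := hx
  exact ⟨by rw [map_smul, hx1, smul_zero], k, by rw [map_smul, hk, smul_zero]⟩

lemma NN_sg (hp : p ≠ 0) (i : Bool) (x : U p) (hx : NN hp i x) : NN hp i (sg p i x) := by
  obtain ⟨hx1, k, hk⟩ := hx
  exact ⟨by rw [rr_sg, hx1, map_zero, smul_zero], k, Ad_pow_sg hp i k x hk⟩

lemma NN_Ad (hp : p ≠ 0) (i : Bool) (x : U p) (hx : NN hp i x) : NN hp i (Ad p i x) := by
  obtain ⟨hx1, k, hk⟩ := hx
  refine ⟨rr_Ad hp i x hx1, k, ?_⟩
  rw [← Module.End.mul_apply, ← pow_succ, pow_succ', Module.End.mul_apply, hk, map_zero]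

lemma NN_one (hp : p ≠ 0) (i : Bool) : NN hp i 1 := by
  refine ⟨rr_one hp i, 1, ?_⟩
  rw [pow_one, Ad_apply, map_one, mul_one, one_mul, sub_self]

lemma NN_g (hp : p ≠ 0) (i : Bool) : NN hp i (g p (!i)) := by
  refine ⟨by rw [rr_g, if_neg]; simp, 3, ?_⟩
  have h := Ad_cube hp i
  rw [pow_succ, pow_succ, pow_one, Module.End.mul_apply, Module.End.mul_apply]
  exact h

/-- Expansions along powers of a generator. -/
def Rp (hp : p ≠ 0) (i : Bool) (n : ℕ) (x : U p) : Prop :=
  ∃ f : ℕ → U p, (∀ k, NN hp i (f k)) ∧ x = ∑ k ∈ Finset.range n, f k * g p i ^ k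

lemma Rp_mono (hp : p ≠ 0) (i : Bool) (n m : ℕ) (h : n ≤ m) (x : U p) (hx : Rp hp i n x) :
    Rp hp i m x := by
  induction m, h using Nat.le_induction with
  | base => exact hx
  | succ m hm ih =>
    obtain ⟨f, hf, hx⟩ := ih
    refine ⟨fun k => if k = m then 0 else f k, ?_, ?_⟩
    · intro k
      dsimp only
      split_ifs
      · exact NN_zero hp i
      · exact hf k
    · rw [Finset.sum_range_succ]
      dsimp only
      rw [if_pos rfl, zero_mul, add_zero, hx]
      refine Finset.sum_congr rfl fun k hk => ?_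
      rw [if_neg (by simp at hk; omega)]

lemma Rp_add (hp : p ≠ 0) (i : Bool) (n : ℕ) (x y : U p) (hx : Rp hp i n x)
    (hy : Rp hp i n y) : Rp hp i n (x + y) := by
  obtain ⟨f, hf, hx⟩ := hx
  obtain ⟨h, hh, hy⟩ := hy
  refine ⟨fun k => f k + h k, fun k => NN_add hp i _ _ (hf k) (hh k), ?_⟩
  simp only [add_mul, Finset.sum_add_distrib, hx, hy]

lemma Rp_all (hp : p ≠ 0) (i : Bool) (x : U p) : ∃ n, Rp hp i n x := by
  refine ind (C := fun x => ∃ n, Rp hp i n x) ?_ ?_ ?_ ?_ x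
  · exact ⟨1, fun _ => 1, fun _ => NN_one hp i, by simp⟩
  · rintro j x ⟨n, f, hf, hx⟩
    by_cases hj : j = i
    · subst hj
      have h1 : Rp hp j (n + 1) (∑ k ∈ Finset.range n, Ad p j (f k) * g p j ^ k) :=
        Rp_mono hp j n _ (by omega) _ ⟨fun k => Ad p j (f k), fun k => NN_Ad hp j _ (hf k), rfl⟩
      have h2 : Rp hp j (n + 1) (∑ k ∈ Finset.range n, sg p j (f k) * g p j ^ (k + 1)) := by
        refine ⟨fun k => if k = 0 then 0 else sg p j (f (k - 1)), ?_, ?_⟩
        · intro k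
          dsimp only
          split_ifs
          · exact NN_zero hp j
          · exact NN_sg hp j _ (hf _)
        · rw [Finset.sum_range_succ']
          simp
      refine ⟨n + 1, ?_⟩
      have h3 := Rp_add hp j (n + 1) _ _ h1 h2
      rw [← Finset.sum_add_distrib] at h3
      convert h3 using 1
      rw [hx, Finset.mul_sum]
      refine Finset.sum_congr rfl fun k _ => ?_
      rw [Ad_apply, pow_succ']
      noncomm_ring
    · have hj' : j = !i := by cases i <;> cases j <;> simp_all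
      subst hj'
      refine ⟨n, fun k => g p (!i) * f k, fun k => NN_mul hp i _ _ (NN_g hp i) (hf k), ?_⟩
      rw [hx, Finset.mul_sum]
      refine Finset.sum_congr rfl fun k _ => ?_
      rw [mul_assoc]
  · rintro x y ⟨n, hx⟩ ⟨m, hy⟩
    exact ⟨max n m, Rp_add hp i _ _ _ (Rp_mono hp i n _ (le_max_left _ _) _ hx)
      (Rp_mono hp i m _ (le_max_right _ _) _ hy)⟩
  · rintro a x ⟨n, f, hf, hx⟩
    refine ⟨n, fun k => a • f k, fun k => NN_smul hp i _ _ (hf k), ?_⟩
    rw [hx, Finset.smul_sum]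
    refine Finset.sum_congr rfl fun k _ => ?_
    rw [smul_mul_assoc]

/-- Brackets. -/
def br (p : K) (k : ℕ) : K := ∑ j ∈ Finset.range k, p ^ j

lemma br_mul (k : ℕ) : (1 - p) * br p k = 1 - p ^ k := by
  unfold br
  rw [mul_comm]
  have := geom_sum_mul_neg p k
  exact this

lemma br_ne (h : ∀ n : ℕ, 0 < n → p ^ n ≠ 1) (k : ℕ) : br p (k + 1) ≠ 0 := by
  intro h0
  have h1 := br_mul (p := p) (k + 1)
  rw [h0, mul_zero] at h1
  exact h (k + 1) (by omega) (sub_eq_zero.1 h1.symm).symm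

lemma sg_pow (i : Bool) (k : ℕ) : sg p i (g p i ^ k) = p ^ k • g p i ^ k := by
  rw [map_pow, sg_g, c_self, smul_pow]

lemma rr_pow (hp : p ≠ 0) (i : Bool) (k : ℕ) :
    rr hp i (g p i ^ (k + 1)) = br p (k + 1) • g p i ^ k := by
  induction k with
  | zero => simp [rr_g, br]
  | succ k ih =>
    rw [pow_succ', rr_gmul, ih, if_pos rfl, sg_pow, mul_smul_comm, ← pow_succ', ← add_smul]
    congr 1
    unfold br
    rw [Finset.sum_range_succ _ (k + 1)]

lemma rr_sum (hp : p ≠ 0) (i : Bool) (n : ℕ) (f : ℕ → U p) (hf : ∀ k, rr hp i (f k) = 0) :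
    rr hp i (∑ k ∈ Finset.range (n + 1), f k * g p i ^ k)
      = ∑ k ∈ Finset.range n, (br p (k + 1) • f (k + 1)) * g p i ^ k := by
  rw [map_sum, Finset.sum_range_succ']
  have h0 : rr hp i (f 0 * g p i ^ 0) = 0 := by rw [pow_zero, mul_one, hf]
  rw [h0, add_zero]
  refine Finset.sum_congr rfl fun k _ => ?_
  rw [rr_mul, hf, zero_mul, zero_add, rr_pow, mul_smul_comm, smul_mul_assoc]

lemma indep (hp : p ≠ 0) (h : ∀ n : ℕ, 0 < n → p ^ n ≠ 1) (i : Bool) (n : ℕ) :
    ∀ f : ℕ → U p, (∀ k, rr hp i (f k) = 0) →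
      ∑ k ∈ Finset.range n, f k * g p i ^ k = 0 → ∀ k < n, f k = 0 := by
  induction n with
  | zero => intro f _ _ k hk; omega
  | succ n ih =>
    intro f hf hs
    have h1 := rr_sum hp i n f hf
    rw [hs, map_zero] at h1
    have h2 := ih (fun k => br p (k + 1) • f (k + 1))
      (fun k => by rw [map_smul, hf, smul_zero]) h1.symm
    have h3 : ∀ k < n, f (k + 1) = 0 := fun k hk =>
      (smul_eq_zero.1 (h2 k hk)).resolve_left (br_ne h k)
    rw [Finset.sum_range_succ', Finset.sum_eq_zero, zero_add, pow_zero, mul_one] at hs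
    · intro k hk
      rcases k with _ | k
      · exact hs
      · exact h3 k (by omega)
    · intro k hk
      rw [h3 k (by simpa using hk), zero_mul]

lemma nilp (hp : p ≠ 0) (h : ∀ n : ℕ, 0 < n → p ^ n ≠ 1) (i : Bool) (x : U p)
    (hx : rr hp i x = 0) : ∃ k, (Ad p i ^ k) x = 0 := by
  obtain ⟨n, f, hf, hfx⟩ := Rp_all hp i x
  rcases n with _ | n
  · exact ⟨0, by rw [hfx]; simp⟩
  · have h1 := rr_sum hp i n f (fun k => (hf k).1)
    rw [← hfx, hx] at h1
    have h2 := indep hp h i n (fun k => br p (k + 1) • f (k + 1))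
      (fun k => by rw [map_smul, (hf _).1, smul_zero]) h1.symm
    have h3 : ∀ k < n, f (k + 1) = 0 := fun k hk =>
      (smul_eq_zero.1 (h2 k hk)).resolve_left (br_ne h k)
    rw [Finset.sum_range_succ', Finset.sum_eq_zero, zero_add, pow_zero, mul_one] at hfx
    · rw [hfx]; exact (hf 0).2
    · intro k hk
      rw [h3 k (by simpa using hk), zero_mul]

lemma sl_two (hp : p ≠ 0) (i : Bool) (d : ℤ) (x : U p)
    (hw : sg p i x = p ^ d • x) (hl : ll hp i x = 0) (k : ℕ) :
    sg p i ((Ad p i ^ k) x) = p ^ (d + k) • (Ad p i ^ k) x ∧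
    (1 - p) • ll hp i ((Ad p i ^ (k + 1)) x)
      = ((1 - p ^ (k + 1)) * (1 - p ^ (2 * d + k))) • (Ad p i ^ k) x := by
  have hs : ∀ k : ℕ, sg p i ((Ad p i ^ k) x) = p ^ (d + k) • (Ad p i ^ k) x := by
    intro k
    rw [sg_Ad_pow, hw, map_smul, smul_smul, zpow_add₀ hp, zpow_natCast, mul_comm]
  refine ⟨hs k, ?_⟩
  induction k with
  | zero =>
    rw [zero_add, pow_one, pow_one, pow_zero, Module.End.one_apply, ll_Ad, hl, map_zero, smul_zero,
      zero_add, hw, map_smul, hw, smul_smul, smul_sub, smul_smul, ← sub_smul, ← zpow_add₀ hp]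
    congr 1
    rw [Nat.cast_zero, add_zero, two_mul]
    ring
  | succ k ih =>
    rw [pow_succ', Module.End.mul_apply, ll_Ad, hs, map_smul, hs, smul_sub, smul_add,
      smul_comm (1 - p) p, ← map_smul, ih, map_smul, ← Module.End.mul_apply, ← pow_succ',
      smul_smul, smul_smul, smul_smul, ← add_smul, ← sub_smul]
    congr 1
    push_cast
    have h2 : p ^ (2 * d + k + 1) = p ^ (2 * d) * p ^ k * p := by
      rw [zpow_add₀ hp, zpow_add₀ hp, zpow_natCast, zpow_one]
    have h3 : p ^ (2 * d + k) = p ^ (2 * d) * p ^ k := by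
      rw [zpow_add₀ hp, zpow_natCast]
    have h4 : p ^ (d + ((k : ℤ) + 1)) * p ^ (d + ((k : ℤ) + 1)) = p ^ (2 * d) * p ^ k * p ^ k * p * p := by
      rw [← zpow_add₀ hp, show d + ((k : ℤ) + 1) + (d + ((k : ℤ) + 1)) = 2 * d + k + k + 1 + 1 by ring,
        zpow_add₀ hp, zpow_add₀ hp, zpow_add₀ hp, zpow_add₀ hp, zpow_natCast, zpow_one]
    rw [show (2 * d + ((k : ℤ) + 1)) = 2 * d + k + 1 by ring, h2, h3, mul_assoc (1 - p), h4]
    ring

lemma vanish (hp : p ≠ 0) (h : ∀ n : ℕ, 0 < n → p ^ n ≠ 1) (i : Bool) (d : ℤ) (hd : 0 < d)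
    (x : U p) (hw : sg p i x = p ^ d • x) (hl : ll hp i x = 0) (hr : rr hp i x = 0) : x = 0 := by
  obtain ⟨k, hk⟩ := nilp hp h i x hr
  induction k with
  | zero => simpa using hk
  | succ k ih =>
    apply ih
    have h1 := (sl_two hp i d x hw hl k).2
    rw [hk, map_zero, smul_zero] at h1
    refine (smul_eq_zero.1 h1.symm).resolve_left (mul_ne_zero ?_ ?_)
    · exact fun h0 => h (k + 1) (by omega) (sub_eq_zero.1 h0).symm
    · intro h0
      obtain ⟨m, hm⟩ : ∃ m : ℕ, 2 * d + k = m := ⟨(2 * d + k).toNat, by omega⟩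
      rw [hm, zpow_natCast] at h0
      exact h m (by omega) (sub_eq_zero.1 h0).symm

end Pool.Agent.Y427.CP
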