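import Pool.Agent.Y427.CP.Grade

/-!
Skew derivations, the braided antipode and the braided coproduct.
-/

open scoped TensorProduct

namespace Pool.Agent.Y427.CP

variable {K : Type*} [Field K] (p : K)

/-- The bicharacter. -/
def c (i j : Bool) : K := if i = j then p else p⁻¹

lemma c_self (i : Bool) : c p i i = p := by simp [c]

lemma c_not (i : Bool) : c p i (!i) = p⁻¹ := by simp [c]

lemma c_not' (i : Bool) : c p (!i) i = p⁻¹ := by simp [c]

lemma c_comm (i j : Bool) : c p i j = c p j i := by
  unfold c
  by_cases h : i = j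
  · simp [h]
  · simp [h, Ne.symm h]

/-- The weight automorphisms. -/
noncomputable def sg (i : Bool) : U p →ₐ[K] U p :=
  lft (fun j => c p i j • g p j) (fun j => by rw [ser_smul, ser_g, smul_zero])

@[simp] lemma sg_g (i j : Bool) : sg p i (g p j) = c p i j • g p j := by
  unfold sg; rw [lft_g]

lemma sg_gmul (i j : Bool) (x : U p) : sg p i (g p j * x) = c p i j • (g p j * sg p i x) := by
  rw [map_mul, sg_g, smul_mul_assoc]

lemma sg_mulg (i j : Bool) (x : U p) : sg p i (x * g p j) = c p i j • (sg p i x * g p j) := by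
  rw [map_mul, sg_g, mul_smul_comm]

lemma sg_comm (i j : Bool) (x : U p) : sg p i (sg p j x) = sg p j (sg p i x) := by
  refine lext ((sg p i).toLinearMap ∘ₗ (sg p j).toLinearMap)
    ((sg p j).toLinearMap ∘ₗ (sg p i).toLinearMap) ?_ ?_ x
  · simp
  · intro k x hx
    simp only [LinearMap.comp_apply, AlgHom.toLinearMap_apply] at hx ⊢
    rw [sg_gmul, sg_gmul, map_smul, map_smul, sg_gmul, sg_gmul, hx, smul_smul, smul_smul, mul_comm]

section pair

/-- Diagonal operators on pairs. -/
noncomputable def dg (i j : Bool) : Module.End K (U p × U p) :=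
  LinearMap.prodMap (Lm p (g p j)) (c p i j • Lm p (g p j))

/-- Upper operators on pairs. -/
noncomputable def up (i j : Bool) : Module.End K (U p × U p) :=
  if i = j then LinearMap.inl K _ _ ∘ₗ LinearMap.snd K _ _ else 0

/-- Lower operators on pairs. -/
noncomputable def dn (i j : Bool) : Module.End K (U p × U p) :=
  if i = j then LinearMap.inr K _ _ ∘ₗ LinearMap.fst K _ _ else 0

lemma dg_apply (i j : Bool) (a b : U p) :
    dg p i j (a, b) = (g p j * a, c p i j • (g p j * b)) := rfl

lemma up_apply (i j : Bool) (a b : U p) :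
    up p i j (a, b) = (if i = j then b else 0, 0) := by
  unfold up
  split_ifs
  · simp
  · rfl

lemma dn_apply (i j : Bool) (a b : U p) :
    dn p i j (a, b) = (0, if i = j then a else 0) := by
  unfold dn
  split_ifs
  · simp
  · rfl

lemma ser_Lm (i : Bool) : ser p (Lm p (g p i)) (Lm p (g p (!i))) = 0 := by
  have h := ser_map (p := p) (R := U p) (S := Module.End K (U p)) (Algebra.lmul K (U p)) (g p i) (g p (!i))
  rw [ser_g, map_zero] at h
  exact h.symm

lemma ser_prod {R S : Type*} [Ring R] [Algebra K R] [Ring S] [Algebra K S]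
    (x y : R × S) (h1 : ser p x.1 y.1 = 0) (h2 : ser p x.2 y.2 = 0) : ser p x y = 0 := by
  have a := ser_map (p := p) (AlgHom.fst K R S) x y
  have b := ser_map (p := p) (AlgHom.snd K R S) x y
  refine Prod.ext ?_ ?_
  · exact a.trans h1
  · exact b.trans h2

lemma ser_dg (i j : Bool) : ser p (dg p i j) (dg p i (!j)) = 0 := by
  have h : ser p ((Lm p (g p j), c p i j • Lm p (g p j)) : Module.End K (U p) × Module.End K (U p))
      (Lm p (g p (!j)), c p i (!j) • Lm p (g p (!j))) = 0 := by
    apply ser_prod
    · exact ser_Lm p j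
    · change ser p (c p i j • Lm p (g p j)) (c p i (!j) • Lm p (g p (!j))) = 0
      rw [ser_smul, ser_Lm, smul_zero]
  have h2 := ser_map (p := p) (R := Module.End K (U p) × Module.End K (U p))
    (S := Module.End K (U p × U p)) (LinearMap.prodMapAlgHom K (U p) (U p))
    (Lm p (g p j), c p i j • Lm p (g p j)) (Lm p (g p (!j)), c p i (!j) • Lm p (g p (!j)))
  rw [h, map_zero] at h2
  exact h2.symm

lemma up_up (i j k : Bool) : up p i j * up p i k = 0 := by
  ext x <;> simp [Module.End.mul_apply, up_apply]

lemma dn_dn (i j k : Bool) : dn p i j * dn p i k = 0 := by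
  ext x <;> simp [Module.End.mul_apply, dn_apply]

lemma up_dg (i k j : Bool) : up p i k * dg p i j = c p k j • (dg p i j * up p i k) := by
  by_cases h : i = k
  · subst h
    ext x <;> simp [Module.End.mul_apply, up_apply, dg_apply]
  · ext x <;> simp [Module.End.mul_apply, up_apply, dg_apply, h]

lemma dg_dn (i k j : Bool) : dg p i j * dn p i k = c p k j • (dn p i k * dg p i j) := by
  by_cases h : i = k
  · subst h
    ext x <;> simp [Module.End.mul_apply, dn_apply, dg_apply]
  · ext x <;> simp [Module.End.mul_apply, dn_apply, dg_apply, h]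

lemma ser_up (i j : Bool) : ser p (up p i j) (up p i (!j)) = 0 := by
  unfold ser
  simp [mul_assoc, up_up]

lemma ser_dn (i j : Bool) : ser p (dn p i j) (dn p i (!j)) = 0 := by
  unfold ser
  simp [mul_assoc, dn_dn]

variable {p}

/-- Representation on pairs used for the right skew derivation. -/
noncomputable def repR (hp : p ≠ 0) (i : Bool) : U p →ₐ[K] Module.End K (U p × U p) :=
  lft (fun j => dg p i j + up p i j) (fun j => by
    refine ser_mix hp ?_ ?_ ?_ (ser_dg p i j) (ser_up p i j)
    · rw [up_dg, c_self]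
    · rw [up_dg, c_not]
    · rw [up_dg, c_not'])

/-- Representation on pairs used for the left skew derivation. -/
noncomputable def repL (hp : p ≠ 0) (i : Bool) : U p →ₐ[K] Module.End K (U p × U p) :=
  lft (fun j => dn p i j + dg p i j) (fun j => by
    refine ser_mix hp ?_ ?_ ?_ (ser_dn p i j) (ser_dg p i j)
    · rw [dg_dn, c_self]
    · rw [dg_dn, c_not']
    · rw [dg_dn, c_not])

/-- The right skew derivation. -/
noncomputable def rr (hp : p ≠ 0) (i : Bool) : U p →ₗ[K] U p :=
  LinearMap.fst K _ _ ∘ₗ (LinearMap.applyₗ ((0, 1) : U p × U p)) ∘ₗ (repR hp i).toLinearMap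

/-- The left skew derivation. -/
noncomputable def ll (hp : p ≠ 0) (i : Bool) : U p →ₗ[K] U p :=
  LinearMap.snd K _ _ ∘ₗ (LinearMap.applyₗ ((1, 0) : U p × U p)) ∘ₗ (repL hp i).toLinearMap

lemma repR_apply (hp : p ≠ 0) (i : Bool) (x : U p) : repR hp i x (0, 1) = (rr hp i x, sg p i x) := by
  refine Prod.ext rfl ?_
  refine lext (LinearMap.snd K _ _ ∘ₗ (LinearMap.applyₗ ((0, 1) : U p × U p)) ∘ₗ
    (repR hp i).toLinearMap) (sg p i).toLinearMap ?_ ?_ x
  · simp
  · intro j x hx
    simp only [LinearMap.comp_apply, AlgHom.toLinearMap_apply, LinearMap.applyₗ_apply_apply,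
      LinearMap.snd_apply] at hx ⊢
    rw [map_mul, Module.End.mul_apply, sg_gmul, ← hx]
    rcases (repR hp i x) (0, 1) with ⟨a, b⟩
    unfold repR
    rw [lft_g]
    simp [dg_apply, up_apply]

lemma rr_one (hp : p ≠ 0) (i : Bool) : rr hp i 1 = 0 := by
  have h := repR_apply hp i 1
  rw [map_one] at h
  exact (congrArg Prod.fst h).symm

lemma rr_gmul (hp : p ≠ 0) (i j : Bool) (x : U p) :
    rr hp i (g p j * x) = g p j * rr hp i x + if i = j then sg p i x else 0 := by
  have h := repR_apply hp i (g p j * x)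
  rw [map_mul, Module.End.mul_apply, repR_apply hp i x] at h
  have h2 := congrArg Prod.fst h
  simp only at h2
  rw [← h2]
  unfold repR
  rw [lft_g, LinearMap.add_apply, dg_apply, up_apply, Prod.fst_add]

lemma repL_apply (hp : p ≠ 0) (i : Bool) (x : U p) : repL hp i x (1, 0) = (x, ll hp i x) := by
  refine Prod.ext ?_ rfl
  refine lext (LinearMap.fst K _ _ ∘ₗ (LinearMap.applyₗ ((1, 0) : U p × U p)) ∘ₗ
    (repL hp i).toLinearMap) LinearMap.id ?_ ?_ x
  · simp
  · intro j x hx
    simp only [LinearMap.comp_apply, AlgHom.toLinearMap_apply, LinearMap.applyₗ_apply_apply,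
      LinearMap.fst_apply, LinearMap.id_apply] at hx ⊢
    rw [map_mul, Module.End.mul_apply]
    conv_rhs => rw [← hx]
    rcases (repL hp i x) (1, 0) with ⟨a, b⟩
    unfold repL
    rw [lft_g]
    simp [dg_apply, dn_apply]

lemma ll_one (hp : p ≠ 0) (i : Bool) : ll hp i 1 = 0 := by
  have h := repL_apply hp i 1
  rw [map_one] at h
  exact (congrArg Prod.snd h).symm

lemma ll_gmul (hp : p ≠ 0) (i j : Bool) (x : U p) :
    ll hp i (g p j * x) = (if i = j then x else 0) + c p i j • (g p j * ll hp i x) := by
  have h := repL_apply hp i (g p j * x)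
  rw [map_mul, Module.End.mul_apply, repL_apply hp i x] at h
  have h2 := congrArg Prod.snd h
  simp only at h2
  rw [← h2]
  unfold repL
  rw [lft_g, LinearMap.add_apply, dg_apply, dn_apply, Prod.snd_add]

end pair

end Pool.Agent.Y427.CP
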