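import Mathlib

/-!
The cubic Serre expression and the basic mixing lemma.
-/

namespace Pool.Agent.Y427.CP

variable {K : Type*} [Field K]

/-- The cubic Serre expression, with parameter `p`. -/
def ser {R : Type*} [Ring R] [Algebra K R] (p : K) (X Y : R) : R :=
  X * X * X * Y - (p + 1 + p⁻¹) • (X * X * Y * X) + (p + 1 + p⁻¹) • (X * Y * X * X)
    - Y * X * X * X

lemma ser_mix {R : Type*} [Ring R] [Algebra K R] {p : K} (hp : p ≠ 0) {X Y X' Y' : R}
    (h1 : X' * X = p • (X * X')) (h2 : X' * Y = p⁻¹ • (Y * X'))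
    (h3 : Y' * X = p⁻¹ • (X * Y'))
    (hX : ser p X Y = 0) (hX' : ser p X' Y' = 0) : ser p (X + X') (Y + Y') = 0 := by
  have h1' : ∀ Z, X' * (X * Z) = p • (X * (X' * Z)) := fun Z => by
    rw [← mul_assoc, h1, smul_mul_assoc, mul_assoc]
  have h2' : ∀ Z, X' * (Y * Z) = p⁻¹ • (Y * (X' * Z)) := fun Z => by
    rw [← mul_assoc, h2, smul_mul_assoc, mul_assoc]
  have h3' : ∀ Z, Y' * (X * Z) = p⁻¹ • (X * (Y' * Z)) := fun Z => by
    rw [← mul_assoc, h3, smul_mul_assoc, mul_assoc]
  have key : ser p (X + X') (Y + Y') = ser p X Y + ser p X' Y' := by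
    unfold ser
    simp only [mul_assoc, add_mul, mul_add, h1, h1', h2, h2', h3, h3', mul_smul_comm,
      smul_mul_assoc, smul_smul, smul_add]
    match_scalars <;> field_simp <;> ring
  rw [key, hX, hX', add_zero]

lemma ser_smul {R : Type*} [Ring R] [Algebra K R] {p : K} (a b : K) (X Y : R) :
    ser p (a • X) (b • Y) = (a ^ 3 * b) • ser p X Y := by
  unfold ser
  simp only [mul_assoc, mul_smul_comm, smul_mul_assoc, smul_smul, smul_add, smul_sub]
  match_scalars <;> ring

lemma ser_map {R S : Type*} [Ring R] [Algebra K R] [Ring S] [Algebra K S] {p : K}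
    (f : R →ₐ[K] S) (X Y : R) : f (ser p X Y) = ser p (f X) (f Y) := by
  unfold ser
  simp only [map_sub, map_add, map_mul, map_smul]

end Pool.Agent.Y427.CP
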